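import Pool.Agent.N162.CW.Stm
import Pool.Agent.N27.CV.B1

/-!
# Project CW, part B1: two projections, linear range (after `Pool/Agent/N27/CV/B1.lean`)
-/

set_option autoImplicit false

open MvPolynomial Finset

namespace Pool.Agent.N966.CW

open Pool.Agent.N162.CV Pool.Agent.N27.CV

/-- **CW/B1** -/
theorem b1_ (h : Pool.Agent.N162.CW.StA2) : Pool.Agent.N162.CW.StB1 := by
  intro Ω _ _ _ ι S q lam m N F hS hq0 hinj hlam hrel hm hcard ⟨c, hc0, hcF⟩
  classical
  have : CharZero Ω := charZero_of_injective_algebraMap (algebraMap ℂ Ω).injective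
  set v : ι → Fin 3 → Ω := fun i s => q i s.succ with hv
  have hvne : ∀ i ∈ S, ∀ j ∈ S, i ≠ j → v i - v j ≠ 0 := by
    intro i hi j hj hne h0
    apply hne
    apply hinj hi hj
    funext s
    refine Fin.cases ?_ (fun s => ?_) s
    · rw [hq0 i hi, hq0 j hj]
    · exact sub_eq_zero.1 (congrFun h0 s)
  -- the form
  set Fp : MvPolynomial (Fin 3) Ω :=
    aeval (Fin.cons 0 X : Fin 4 → MvPolynomial (Fin 3) Ω) F with hFp
  have hFp0 : Fp ≠ 0 := by
    intro h0
    have h1 := evF (Ω := Ω) F (fun s => c s.succ)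
    have h2 : (Fin.cons 0 (fun s => c s.succ) : Fin 4 → ℂ) = c := by
      funext s
      refine Fin.cases ?_ (fun s => ?_) s
      · rw [Fin.cons_zero, hc0]
      · rw [Fin.cons_succ]
    rw [← hFp, h0, map_zero, h2] at h1
    exact hcF ((map_eq_zero (algebraMap ℂ Ω)).1 h1.symm)
  set hh : MvPolynomial (Fin 3) Ω :=
    Fp * X 0 * ∏ i ∈ S, ∏ j ∈ S, (if i = j then 1 else Lw (v i - v j)) with hhh
  have hh0 : hh ≠ 0 := by
    refine mul_ne_zero (mul_ne_zero hFp0 (X_ne_zero 0)) ?_
    refine Finset.prod_ne_zero_iff.2 fun i hi => Finset.prod_ne_zero_iff.2 fun j hj => ?_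
    split_ifs with hij
    · exact one_ne_zero
    · exact Lw_ne (hvne i hi j hj hij)
  -- natural points
  set cΩ : (Fin 3 → ℕ) → Fin 3 → Ω := fun o s => (o s : Ω) with hcΩ
  have good1 : ∀ o : Fin 3 → ℕ, eval (cΩ o) hh ≠ 0 →
      eval (Fin.cons 0 (fun s => (o s : ℂ)) : Fin 4 → ℂ) F ≠ 0 := by
    intro o ho h0
    apply ho
    have h1 := evF (Ω := Ω) F (fun s => (o s : ℂ))
    rw [h0, map_zero] at h1
    have h2 : (fun s => algebraMap ℂ Ω ((o s : ℕ) : ℂ)) = cΩ o := by
      funext s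
      simp [hcΩ]
    rw [h2] at h1
    rw [hhh, map_mul, map_mul, ← hFp] at *
    rw [h1, zero_mul, zero_mul]
  have good2 : ∀ o : Fin 3 → ℕ, eval (cΩ o) hh ≠ 0 → cΩ o 0 ≠ 0 := by
    intro o ho h0
    apply ho
    rw [hhh, map_mul, map_mul, eval_X, h0, mul_zero, zero_mul]
  have good3 : ∀ o : Fin 3 → ℕ, eval (cΩ o) hh ≠ 0 → ∀ i ∈ S, ∀ j ∈ S, i ≠ j →
      pj (cΩ o) (v i) ≠ pj (cΩ o) (v j) := by
    intro o ho i hi j hj hij h0
    have h1 : eval (cΩ o) (Lw (v i - v j)) ≠ 0 := by
      intro h2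
      apply ho
      rw [hhh, map_mul, map_prod]
      have h3 : ∏ x ∈ S, eval (cΩ o) (∏ j ∈ S, (if x = j then 1 else Lw (v x - v j))) = 0 := by
        refine Finset.prod_eq_zero hi ?_
        rw [map_prod]
        refine Finset.prod_eq_zero hj ?_
        rw [if_neg hij]
        exact h2
      rw [h3, mul_zero]
    have h2 := Lw_spec h1
    rw [pj_sub, h0, sub_self] at h2
    exact h2 rfl
  -- the curves
  have hG : ∀ o : Fin 3 → ℕ, ∃ G : MvPolynomial (Fin 2) Ω, eval (cΩ o) hh ≠ 0 →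
      G ≠ 0 ∧ G.totalDegree ≤ N ∧ 1 ≤ G.totalDegree ∧ ∀ i ∈ S, eval (pj (cΩ o) (v i)) G = 0 := by
    intro o
    by_cases ho : eval (cΩ o) hh ≠ 0
    · obtain ⟨G, hG0, hGd, hGv⟩ := h Ω ι S (fun i => pj (cΩ o) (v i)) lam m N hm hcard
        (by
          intro i hi j hj hij
          by_contra hne
          exact good3 o ho i hi j hj hne hij)
        hlam (rel_proj hq0 hrel (cΩ o))
      refine ⟨G, fun _ => ⟨hG0, hGd, ?_, hGv⟩⟩
      by_contra hcon
      have h1 : G.totalDegree = 0 := by omega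
      rw [totalDegree_eq_zero_iff_eq_C] at h1
      obtain ⟨i, hi⟩ := hS
      have h2 := hGv i hi
      rw [h1, eval_C] at h2
      apply hG0
      rw [h1, h2, C_0]
    · exact ⟨0, fun h => absurd h ho⟩
  choose G hG using hG
  -- the test set
  set L := N + hh.totalDegree with hL
  set O := (Fintype.piFinset (fun _ : Fin 3 => range (L + 1))).filter
    (fun o => eval (cΩ o) hh ≠ 0) with hO
  have htest : ∀ g : MvPolynomial (Fin 3) Ω, g ≠ 0 → g.totalDegree ≤ N →
      ∃ o ∈ O, eval (cΩ o) g ≠ 0 := by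
    intro g hg hgd
    by_contra hcon
    push Not at hcon
    have h1 : g * hh = 0 := by
      refine grid (L := L) ((totalDegree_mul _ _).trans ?_) fun o ho => ?_
      · rw [hL]; omega
      · rw [map_mul]
        by_cases h2 : eval (cΩ o) hh = 0
        · exact mul_eq_zero_of_right _ h2
        · refine mul_eq_zero_of_left (hcon o ?_) _
          rw [hO, Finset.mem_filter, Fintype.mem_piFinset]
          exact ⟨fun s => Finset.mem_range.2 (Nat.lt_succ_of_le (ho s)), h2⟩
    exact mul_ne_zero hg hh0 h1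
  have hOg : ∀ o ∈ O, eval (cΩ o) hh ≠ 0 := fun o ho => (Finset.mem_filter.1 ho).2
  -- the second direction
  obtain ⟨o', ho'⟩ := exists_nat (P := hh * ∏ o ∈ O, gg (cΩ o) (G o)) (by
    refine mul_ne_zero hh0 (Finset.prod_ne_zero_iff.2 fun o ho => ?_)
    exact gg_ne (good2 o (hOg o ho)) (hG o (hOg o ho)).1)
  rw [map_mul, map_prod] at ho'
  have ho'1 : eval (cΩ o') hh ≠ 0 := left_ne_zero_of_mul ho'
  have ho'2 : ∀ o ∈ O, eval (cΩ o') (gg (cΩ o) (G o)) ≠ 0 :=
    Finset.prod_ne_zero_iff.1 (right_ne_zero_of_mul ho')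
  obtain ⟨hG'0, hG'd, hG'1, hG'v⟩ := hG o' ho'1
  obtain ⟨o, hoO, ho2⟩ := htest (gg (cΩ o') (G o')) (gg_ne (good2 o' ho'1) hG'0)
    ((gg_deg _ _).trans hG'd)
  have ho1 := hOg o hoO
  obtain ⟨hG0, hGd, hG1, hGv⟩ := hG o ho1
  have ho3 := ho'2 o hoO
  rw [gg_eval] at ho2 ho3
  -- independence
  have hpj : pj (cΩ o) (cΩ o') ≠ 0 := by
    intro h0
    rw [h0, hom_zero (homogeneousComponent_isHomogeneous _ _) hG1] at ho3
    exact ho3 rfl
  obtain ⟨e, he⟩ : ∃ e : Fin 3 → ℚ, (Mat e (fun s => (o' s : ℚ)) (fun s => (o s : ℚ))).det ≠ 0 := by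
    apply exists_e
    by_contra hcon
    push Not at hcon
    apply hpj
    funext s
    fin_cases s
    · have := congrArg (Rat.cast : ℚ → Ω) hcon.1
      push_cast at this
      simpa [pj, hcΩ] using this
    · have := congrArg (Rat.cast : ℚ → Ω) hcon.2
      push_cast at this
      simpa [pj, hcΩ] using this
  set M' := Mat e (fun s => (o' s : ℚ)) (fun s => (o s : ℚ)) with hM'
  have hu : IsUnit M'.det := isUnit_iff_ne_zero.2 he
  have hMM' : M'⁻¹ * M' = 1 := Matrix.nonsing_inv_mul _ hu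
  have hM'M : M' * M'⁻¹ = 1 := Matrix.mul_nonsing_inv _ hu
  set M := M'⁻¹ with hM
  have hrow : ∀ j, M 0 j = if j = 0 then 1 else 0 := by
    intro j
    have h1 := congrFun (congrFun hM'M 0) j
    rw [Matrix.mul_apply, Fin.sum_univ_four] at h1
    have e0 : M' 0 0 = 1 := rfl
    have e1 : M' 0 1 = 0 := rfl
    have e2 : M' 0 2 = 0 := rfl
    have e3 : M' 0 3 = 0 := rfl
    rw [e0, e1, e2, e3, one_mul, zero_mul, zero_mul, zero_mul, add_zero, add_zero, add_zero,
      Matrix.one_apply] at h1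
    rw [h1]
    by_cases hj : j = 0
    · rw [if_pos hj, if_pos hj.symm]
    · rw [if_neg hj, if_neg (fun h => hj h.symm)]
  -- the coordinates of the points
  have hpt : ∀ i ∈ S, ∀ s : Fin 3, v i s = (e s : Ω) * ∑ j, (M 1 j : Ω) * q i j +
      cΩ o' s * ∑ j, (M 2 j : Ω) * q i j + cΩ o s * ∑ j, (M 3 j : Ω) * q i j := by
    intro i hi s
    have h1 : ∀ s : Fin 4, ∑ k, (M' s k : Ω) * ∑ j, (M k j : Ω) * q i j = q i s := by
      intro s
      have h2 : ∀ j, ∑ k, (M' s k : Ω) * (M k j : Ω) = if s = j then 1 else 0 := by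
        intro j
        have h3 := congrFun (congrFun hM'M s) j
        rw [Matrix.mul_apply, Matrix.one_apply] at h3
        have h4 := congrArg (Rat.cast : ℚ → Ω) h3
        rw [Rat.cast_sum] at h4
        simp only [Rat.cast_mul] at h4
        rw [h4]
        split_ifs <;> simp
      calc ∑ k, (M' s k : Ω) * ∑ j, (M k j : Ω) * q i j
          = ∑ k, ∑ j, (M' s k : Ω) * (M k j : Ω) * q i j := by
            refine Finset.sum_congr rfl fun k _ => ?_
            rw [Finset.mul_sum]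
            exact Finset.sum_congr rfl fun j _ => by ring
        _ = ∑ j, (∑ k, (M' s k : Ω) * (M k j : Ω)) * q i j := by
            rw [Finset.sum_comm]
            exact Finset.sum_congr rfl fun j _ => by rw [Finset.sum_mul]
        _ = q i s := by
            simp only [h2]
            simp
    have h2 := h1 s.succ
    rw [Fin.sum_univ_four] at h2
    have e0 : M' s.succ 0 = 0 := by fin_cases s <;> rfl
    have e1 : M' s.succ 1 = e s := by fin_cases s <;> rfl
    have e2 : M' s.succ 2 = (o' s : ℚ) := by fin_cases s <;> rfl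
    have e3 : M' s.succ 3 = (o s : ℚ) := by fin_cases s <;> rfl
    rw [e0, e1, e2, e3, Rat.cast_zero, zero_mul, zero_add, Rat.cast_natCast,
      Rat.cast_natCast] at h2
    exact h2.symm
  obtain ⟨hA1, hA2⟩ := sub_spec (pj (cΩ o) (fun s => (e s : Ω))) (pj (cΩ o) (cΩ o')) ho3
  obtain ⟨hB1, hB2⟩ := sub_spec (pj (cΩ o') (fun s => (e s : Ω))) (pj (cΩ o') (cΩ o)) ho2
  refine ⟨M, M', sub (pj (cΩ o) (fun s => (e s : Ω))) (pj (cΩ o) (cΩ o')) (G o),
    sub (pj (cΩ o') (fun s => (e s : Ω))) (pj (cΩ o') (cΩ o)) (G o'), hMM', hM'M, hrow, hA1, hB1,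
    by rw [hA2]; exact hG1, by rw [hA2]; exact hGd, by rw [hB2]; exact hG'1,
    by rw [hB2]; exact hG'd, ?_, ?_⟩
  · intro i hi
    have h0 := hpt i hi 0
    have h1 := hpt i hi 1
    have h2 := hpt i hi 2
    constructor
    · rw [eval_sub', ← hGv i hi]
      congr 2
      funext s
      fin_cases s
      · simp only [pj, Fin.zero_eta, Matrix.cons_val_zero]
        rw [h0, h1]; ring
      · simp only [pj, Fin.mk_one, Matrix.cons_val_one, Matrix.cons_val_fin_one]
        rw [h0, h2]; ring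
    · rw [eval_sub', ← hG'v i hi]
      congr 2
      funext s
      fin_cases s
      · simp only [pj, Fin.zero_eta, Matrix.cons_val_zero]
        rw [h0, h1]; ring
      · simp only [pj, Fin.mk_one, Matrix.cons_val_one, Matrix.cons_val_fin_one]
        rw [h0, h2]; ring
  · have h1 := good1 o ho1
    have h2 : (fun j => ((M' j 3 : ℚ) : ℂ)) = (Fin.cons 0 (fun s => (o s : ℂ)) : Fin 4 → ℂ) := by
      funext j
      fin_cases j
      · have : M' 0 3 = 0 := rfl
        simp [this]
      · have : M' 1 3 = (o 0 : ℚ) := rfl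
        simp [this]
      · have : M' 2 3 = (o 1 : ℚ) := rfl
        simp [this]
        rfl
      · have : M' 3 3 = (o 2 : ℚ) := rfl
        simp [this]
        rfl
    rw [h2]
    exact h1

end Pool.Agent.N966.CW

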